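import Pool.Agent.Helper30.KC.GoalsI
import Pool.Agent.Helper83.KC.BL

/-!
# Project KI (MP_bf413e_co), packet BM: deletion in a ball without hubs, boundary form
-/

set_option autoImplicit false

open scoped Classical
open Finset

namespace Pool.Agent.Helper28.KI

open Pool.Agent.Helper94.KC Pool.Agent.Helper30.KC

/-- **Packet BM** -/
theorem pBM (hGH : StmtGH) : StmtBM := by
  intro V _ T hS R x u k h5 hx hu hxu hub
  have hconn := hS.conn
  -- deletion spreads through a link
  have claimA : ∀ v, v ∉ R → (sk T).dist x v ≤ k → ∀ w0, (sk T).Adj v w0 → w0 ∉ R →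
      ∀ w, (sk T).Adj v w → w ∉ R := by
    intro v hv hd w0 hw0 hw0R w hw
    have hr := hS.link v w0 w hw0 hw
    have hstep : ∀ p q, (lk T v).Adj p q → p ∉ R → q ∉ R := by
      intro p q hpq hp hq
      obtain ⟨hne, hpv, hqv, t, ht, hvt, hpt, hqt⟩ := hpq
      have hadj : (lk T q).Adj v p := ⟨hpv.symm, hqv.symm, hne, t, ht, hqt, hvt, hpt⟩
      have hqa : (sk T).Adj q v := ⟨hqv, t, ht, hqt, hvt⟩
      have h7 := hGH V T R q v p (h5 q hq ⟨v, hv, hqa⟩) hv hp hadj hS
      have h1 := hub q h7
      have h3 : (sk T).dist v q = 1 := SimpleGraph.dist_eq_one_iff_adj.2 hqa.symm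
      have h4 := hconn.dist_triangle (u := x) (v := v) (w := q)
      omega
    obtain ⟨p⟩ := hr
    clear hw hw0
    induction p with
    | nil => exact hw0R
    | cons hadj _ ih => exact ih (hstep _ _ hadj hw0R)
  have claimB : ∀ m, m ≤ k → ∀ v, (sk T).dist x v = m → v ∉ R ∧ ∀ w, (sk T).Adj v w → w ∉ R := by
    intro m
    induction m with
    | zero =>
      intro _ v hv
      have hxv : x = v := (hconn.dist_eq_zero_iff).1 hv
      subst hxv
      exact ⟨hx, claimA x hx (by omega) u hxu hu⟩
    | succ m ih =>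
      intro hm v hv
      obtain ⟨v', hadj, hv'⟩ := Pool.Agent.Helper83.KC.exists_prev hconn hv
      obtain ⟨h1, h2⟩ := ih (by omega) v' hv'
      have hvR : v ∉ R := h2 v hadj.symm
      exact ⟨hvR, claimA v hvR (by omega) v' hadj h1⟩
  intro y hy
  by_cases hk : (sk T).dist x y ≤ k
  · exact (claimB _ hk y rfl).1
  · obtain ⟨v', hadj, hv'⟩ := Pool.Agent.Helper83.KC.exists_prev hconn
      (show (sk T).dist x y = k + 1 by omega)
    exact (claimB k le_rfl v' hv').2 y hadj.symm

end Pool.Agent.Helper28.KI
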